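import Pool.Agent.Helper99.LZ.Quad

/-!
# Packet MT-PAR : the parameters exist and are linear in `ζ`
-/

set_option autoImplicit false

open Finset

namespace Pool.Agent.Helper7.LZ

open Pool.Agent.Helper99.LZ

/-- a combination of `A` and `B` as a linear map of `ζ` -/
noncomputable def lin (a b : ℤ) (m : ℤ → ℤ → ℝ) (c d : ℤ → ℝ) :
    (ℤ → ℤ → ℝ) →ₗ[ℝ] (ℤ → ℝ) where
  toFun ζ k := c k * Am a b m ζ k + d k * Bm a b m ζ k
  map_add' ζ ζ' := by
    funext k
    have h1 : Am a b m (ζ + ζ') k = Am a b m ζ k + Am a b m ζ' k := by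
      unfold Am
      rw [← Finset.sum_add_distrib]
      refine Finset.sum_congr rfl fun i _ => ?_
      rw [← Finset.sum_add_distrib]
      refine Finset.sum_congr rfl fun i' _ => ?_
      split_ifs
      · simp only [Pi.add_apply]; ring
      · simp
    have h2 : Bm a b m (ζ + ζ') k = Bm a b m ζ k + Bm a b m ζ' k := by
      unfold Bm
      rw [← Finset.sum_add_distrib]
      refine Finset.sum_congr rfl fun i _ => ?_
      rw [← Finset.sum_add_distrib]
      refine Finset.sum_congr rfl fun i' _ => ?_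
      split_ifs
      · simp only [Pi.add_apply]; ring
      · simp
    simp only [Pi.add_apply, h1, h2]
    ring
  map_smul' r ζ := by
    funext k
    have h1 : Am a b m (r • ζ) k = r * Am a b m ζ k := by
      unfold Am
      rw [Finset.mul_sum]
      refine Finset.sum_congr rfl fun i _ => ?_
      rw [Finset.mul_sum]
      refine Finset.sum_congr rfl fun i' _ => ?_
      split_ifs
      · simp only [Pi.smul_apply, smul_eq_mul]; ring
      · simp
    have h2 : Bm a b m (r • ζ) k = r * Bm a b m ζ k := by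
      unfold Bm
      rw [Finset.mul_sum]
      refine Finset.sum_congr rfl fun i _ => ?_
      rw [Finset.mul_sum]
      refine Finset.sum_congr rfl fun i' _ => ?_
      split_ifs
      · simp only [Pi.smul_apply, smul_eq_mul]; ring
      · simp
    simp only [Pi.smul_apply, smul_eq_mul, RingHom.id_apply, h1, h2]
    ring

theorem lin_apply (a b : ℤ) (m : ℤ → ℤ → ℝ) (c d : ℤ → ℝ) (ζ : ℤ → ℤ → ℝ) (k : ℤ) :
    lin a b m c d ζ k = c k * Am a b m ζ k + d k * Bm a b m ζ k := rfl

theorem F_nonneg {T : Pr} {a b : ℤ} (hr : T.Reg a b) (k : ℤ) : 0 ≤ T.F k := by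
  by_cases h1 : k < a
  · obtain ⟨h2, h3⟩ := hr.lo k h1
    simp [Pr.F, Pr.H, h2, h3]
  · by_cases h2 : b ≤ k
    · obtain ⟨h3, h4⟩ := hr.hi k h2
      simp only [Pr.F, Pr.H]
      rw [h3, h4]
      simp
    · exact (hr.Fpos k (by omega) (by omega)).le

theorem L_eq (T : Pr) (k : ℤ) : T.L k = T.F k - T.h k := by
  simp only [Pr.L, Pr.F, Pr.h, Pr.H]; ring

theorem R_eq (T : Pr) (k : ℤ) : T.R k = T.F (k - 1) - T.h k := by
  simp only [Pr.R, Pr.F, Pr.h, Pr.H]; ring

/-- `∑_{i ≤ p} L i = P p` -/
theorem sumL {T : Pr} {a b : ℤ} (hr : T.Reg a b) (p : ℤ) (hp : a - 1 ≤ p) :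
    ∑ i ∈ Icc a p, T.L i = T.P p := by
  obtain ⟨n, hn⟩ : ∃ n : ℕ, p = a - 1 + n := ⟨(p - (a - 1)).toNat, by omega⟩
  subst hn
  clear hp
  induction n with
  | zero =>
    have : Icc a (a - 1 + (0 : ℕ)) = ∅ := by
      apply Finset.Icc_eq_empty; push_cast; omega
    rw [this, Finset.sum_empty]
    have := (hr.lo (a - 1) (by omega)).1
    push_cast
    rw [add_zero, this]
  | succ n ih =>
    have : Icc a (a - 1 + ((n + 1 : ℕ) : ℤ)) = insert (a - 1 + ((n + 1 : ℕ) : ℤ))
        (Icc a (a - 1 + (n : ℤ))) := by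
      ext x; simp only [Finset.mem_Icc, Finset.mem_insert]; push_cast; omega
    rw [this, Finset.sum_insert (by simp only [Finset.mem_Icc]; push_cast; omega), ih]
    simp only [Pr.L]
    have h3 : a - 1 + ((n + 1 : ℕ) : ℤ) - 1 = a - 1 + (n : ℤ) := by push_cast; ring
    rw [h3]; ring

theorem sumR {T : Pr} {a b : ℤ} (hr : T.Reg a b) (p : ℤ) (hp : a - 1 ≤ p) :
    ∑ i ∈ Icc a p, T.R i = T.Q p := by
  obtain ⟨n, hn⟩ : ∃ n : ℕ, p = a - 1 + n := ⟨(p - (a - 1)).toNat, by omega⟩
  subst hn
  clear hp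
  induction n with
  | zero =>
    have : Icc a (a - 1 + (0 : ℕ)) = ∅ := by
      apply Finset.Icc_eq_empty; push_cast; omega
    rw [this, Finset.sum_empty]
    have := (hr.lo (a - 1) (by omega)).2
    push_cast
    rw [add_zero, this]
  | succ n ih =>
    have : Icc a (a - 1 + ((n + 1 : ℕ) : ℤ)) = insert (a - 1 + ((n + 1 : ℕ) : ℤ))
        (Icc a (a - 1 + (n : ℤ))) := by
      ext x; simp only [Finset.mem_Icc, Finset.mem_insert]; push_cast; omega
    rw [this, Finset.sum_insert (by simp only [Finset.mem_Icc]; push_cast; omega), ih]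
    simp only [Pr.R]
    have h3 : a - 1 + ((n + 1 : ℕ) : ℤ) - 1 = a - 1 + (n : ℤ) := by push_cast; ring
    rw [h3]; ring

/-- `∑_{i < k} m = P (k-1)` and `∑_{i' ≤ k} m = Q k` inside the support -/
theorem sum_lt {T : Pr} {a b : ℤ} {m : ℤ → ℤ → ℝ} (hr : T.Reg a b) (hc : Cpl T a b m) (k : ℤ)
    (h1 : a ≤ k) (h2 : k ≤ b) :
    ∑ i ∈ Icc a b, ∑ i' ∈ Icc a b, (if i < k then m i i' else 0) = T.P (k - 1) := by
  have e : ∑ i ∈ Icc a b, ∑ i' ∈ Icc a b, (if i < k then m i i' else 0) =
      ∑ i ∈ Icc a b, if i < k then T.L i else 0 := by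
    refine Finset.sum_congr rfl fun i _ => ?_
    split_ifs
    · exact hc.row i
    · simp
  rw [e, ← Finset.sum_filter]
  have : (Icc a b).filter (fun i => i < k) = Icc a (k - 1) := by
    ext x; simp only [Finset.mem_filter, Finset.mem_Icc]; omega
  rw [this, sumL hr (k - 1) (by omega)]

theorem sum_le {T : Pr} {a b : ℤ} {m : ℤ → ℤ → ℝ} (hr : T.Reg a b) (hc : Cpl T a b m) (k : ℤ)
    (h1 : a ≤ k) (h2 : k ≤ b) :
    ∑ i ∈ Icc a b, ∑ i' ∈ Icc a b, (if i' ≤ k then m i i' else 0) = T.Q k := by
  rw [Finset.sum_comm]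
  have e : ∑ i' ∈ Icc a b, ∑ i ∈ Icc a b, (if i' ≤ k then m i i' else 0) =
      ∑ i' ∈ Icc a b, if i' ≤ k then T.R i' else 0 := by
    refine Finset.sum_congr rfl fun i _ => ?_
    split_ifs
    · exact hc.col i
    · simp
  rw [e, ← Finset.sum_filter]
  have : (Icc a b).filter (fun i => i ≤ k) = Icc a k := by
    ext x; simp only [Finset.mem_filter, Finset.mem_Icc]; omega
  rw [this, sumR hr k (by omega)]

/-- where `h < 0` the index lies in `[a, b]` -/
theorem range_of_neg {T : Pr} {a b : ℤ} (hr : T.Reg a b) {k : ℤ} (hk : T.h k < 0) :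
    a ≤ k ∧ k ≤ b := by
  constructor
  · by_contra h1
    have h2 := hr.lo k (by omega)
    have h3 := hr.lo (k - 1) (by omega)
    simp only [Pr.h, Pr.H, h2.2, h3.1] at hk
    linarith
  · by_contra h1
    have h2 := hr.hi k (by omega)
    have h3 := hr.hi (k - 1) (by omega)
    simp only [Pr.h, Pr.H, h2.2, h3.1] at hk
    linarith

/-- no piece strictly around an instant -/
theorem no_around {T : Pr} {a b : ℤ} {m : ℤ → ℤ → ℝ} (hr : T.Reg a b) (hc : Cpl T a b m) {k : ℤ}
    (hk : T.h k < 0) {i i' : ℤ} (h1 : i < k) (h2 : k < i') : m i i' = 0 := by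
  obtain ⟨ha, hb⟩ := range_of_neg hr hk
  have e1 := sum_lt hr hc k ha hb
  have e2 := sum_le hr hc k ha hb
  -- the difference
  have e3 : ∑ i ∈ Icc a b, ∑ i' ∈ Icc a b, (if i < k ∧ k < i' then m i i' else 0) =
      T.h k + T.al k := by
    have e4 : ∑ i ∈ Icc a b, ∑ i' ∈ Icc a b, (if i = k ∧ i' = k then m i i' else 0) = T.al k := by
      rw [Finset.sum_eq_single k]
      · rw [Finset.sum_eq_single k]
        · simp [hc.inst]
        · intro x _ hx; simp [hx]
        · intro hx; exact absurd (Finset.mem_Icc.2 ⟨ha, hb⟩) hx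
      · intro x _ hx; simp [hx]
      · intro hx; exact absurd (Finset.mem_Icc.2 ⟨ha, hb⟩) hx
    have e5 : T.h k = T.P (k - 1) - T.Q k := rfl
    rw [e5, ← e1, ← e2, ← e4, ← Finset.sum_sub_distrib, ← Finset.sum_add_distrib]
    refine Finset.sum_congr rfl fun i _ => ?_
    rw [← Finset.sum_sub_distrib, ← Finset.sum_add_distrib]
    refine Finset.sum_congr rfl fun i' _ => ?_
    by_cases hm : m i i' = 0
    · simp [hm]
    · have h5 := (hc.supp i i' hm).2.1
      by_cases c1 : i < k
      · by_cases c2 : i' ≤ k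
        · have c3 : ¬ (k < i') := by omega
          have c4 : ¬ (i = k) := by omega
          simp [c1, c2, c3, c4]
        · have c3 : k < i' := by omega
          have c4 : ¬ (i = k) := by omega
          simp [c1, c2, c3, c4]
      · by_cases c2 : i' ≤ k
        · have c3 : i = k := by omega
          have c4 : i' = k := by omega
          subst c3; subst c4; simp
        · have c4 : ¬ (i' = k) := by omega
          simp [c1, c2, c4]
  have e6 : T.h k + T.al k = 0 := by
    simp only [Pr.al]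
    rw [max_eq_right (by linarith)]; ring
  rw [e6] at e3
  by_contra hm
  have h5 := hc.supp i i' hm
  have e7 := (Finset.sum_eq_zero_iff_of_nonneg (fun i _ => Finset.sum_nonneg (fun i' _ => by
    split_ifs
    · exact hc.nn i i'
    · exact le_refl _))).1 e3 i (Finset.mem_Icc.2 ⟨h5.1, by omega⟩)
  have e8 := (Finset.sum_eq_zero_iff_of_nonneg (fun i' _ => by
    split_ifs
    · exact hc.nn i i'
    · exact le_refl _)).1 e7 i' (Finset.mem_Icc.2 ⟨by omega, h5.2.2⟩)
  rw [if_pos ⟨h1, h2⟩] at e8
  exact hm e8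

/-- `B k - A k = al k ζ k k` where `h k < 0` -/
theorem BsubA {T : Pr} {a b : ℤ} {m : ℤ → ℤ → ℝ} (hr : T.Reg a b) (hc : Cpl T a b m) {k : ℤ}
    (hk : T.h k < 0) (ζ : ℤ → ℤ → ℝ) : Bm a b m ζ k - Am a b m ζ k = T.al k * ζ k k := by
  obtain ⟨ha, hb⟩ := range_of_neg hr hk
  have e4 : ∑ i ∈ Icc a b, ∑ i' ∈ Icc a b, (if i = k ∧ i' = k then m i i' * ζ i i' else 0) =
      T.al k * ζ k k := by
    rw [Finset.sum_eq_single k]
    · rw [Finset.sum_eq_single k]
      · simp [hc.inst]
      · intro x _ hx; simp [hx]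
      · intro hx; exact absurd (Finset.mem_Icc.2 ⟨ha, hb⟩) hx
    · intro x _ hx; simp [hx]
    · intro hx; exact absurd (Finset.mem_Icc.2 ⟨ha, hb⟩) hx
  rw [← e4, Bm, Am, ← Finset.sum_sub_distrib]
  refine Finset.sum_congr rfl fun i _ => ?_
  rw [← Finset.sum_sub_distrib]
  refine Finset.sum_congr rfl fun i' _ => ?_
  by_cases hm : m i i' = 0
  · simp [hm]
  · have h5 := (hc.supp i i' hm).2.1
    by_cases c1 : i < k
    · by_cases c2 : i' ≤ k
      · have c4 : ¬ (i = k) := by omega
        simp [c1, c2, c4]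
      · exact absurd (no_around hr hc hk c1 (by omega)) hm
    · by_cases c2 : i' ≤ k
      · have c3 : i = k := by omega
        have c4 : i' = k := by omega
        subst c3; subst c4; simp
      · have c4 : ¬ (i' = k) := by omega
        simp [c1, c2, c4]

/-- rows of mass zero -/
theorem row_zero {T : Pr} {a b : ℤ} {m : ℤ → ℤ → ℝ} (hc : Cpl T a b m) {i : ℤ} (h : T.L i = 0)
    (i' : ℤ) : m i i' = 0 := by
  by_contra hm
  have h5 := hc.supp i i' hm
  have e := hc.row i
  rw [h] at e
  exact hm ((Finset.sum_eq_zero_iff_of_nonneg (fun i' _ => hc.nn i i')).1 e i'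
    (Finset.mem_Icc.2 ⟨by omega, h5.2.2⟩))

theorem col_zero {T : Pr} {a b : ℤ} {m : ℤ → ℤ → ℝ} (hc : Cpl T a b m) {i' : ℤ} (h : T.R i' = 0)
    (i : ℤ) : m i i' = 0 := by
  by_contra hm
  have h5 := hc.supp i i' hm
  have e := hc.col i'
  rw [h] at e
  exact hm ((Finset.sum_eq_zero_iff_of_nonneg (fun i _ => hc.nn i i')).1 e i
    (Finset.mem_Icc.2 ⟨h5.1, by omega⟩))

theorem A_zero {T : Pr} {a b : ℤ} {m : ℤ → ℤ → ℝ} (hg : T.NoGap) (hc : Cpl T a b m) {k : ℤ}
    (h : T.L k = 0) (ζ : ℤ → ℤ → ℝ) (ht : ∑ i ∈ Icc a b, ∑ i' ∈ Icc a b, m i i' * ζ i i' = 0) :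
    Am a b m ζ k = 0 := by
  rcases hg.1 k h with h1 | h1
  · refine Finset.sum_eq_zero fun i _ => Finset.sum_eq_zero fun i' _ => ?_
    split_ifs with c
    · rw [row_zero hc (h1 i c)]; simp
    · rfl
  · rw [← ht, Am]
    refine Finset.sum_congr rfl fun i _ => Finset.sum_congr rfl fun i' _ => ?_
    split_ifs with c
    · rfl
    · have : T.L i = 0 := by
        rcases eq_or_lt_of_le (not_lt.1 c) with c1 | c1
        · rw [← c1]; exact h
        · exact h1 i c1
      rw [row_zero hc this]; simp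

theorem B_zero {T : Pr} {a b : ℤ} {m : ℤ → ℤ → ℝ} (hg : T.NoGap) (hc : Cpl T a b m) {k : ℤ}
    (h : T.R k = 0) (ζ : ℤ → ℤ → ℝ) (ht : ∑ i ∈ Icc a b, ∑ i' ∈ Icc a b, m i i' * ζ i i' = 0) :
    Bm a b m ζ k = 0 := by
  rcases hg.2 k h with h1 | h1
  · refine Finset.sum_eq_zero fun i _ => Finset.sum_eq_zero fun i' _ => ?_
    split_ifs with c
    · have : T.R i' = 0 := by
        rcases eq_or_lt_of_le c with c1 | c1
        · rw [c1]; exact h
        · exact h1 i' c1
      rw [col_zero hc this]; simp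
    · rfl
  · rw [← ht, Bm]
    refine Finset.sum_congr rfl fun i _ => Finset.sum_congr rfl fun i' _ => ?_
    split_ifs with c
    · rfl
    · rw [col_zero hc (h1 i' (by omega))]; simp

/-- MT-PAR -/
theorem par : StmtPAR := by
  classical
  intro T a b m opt hr hg hc
  refine ⟨lin a b m (fun k => if T.h k < 0 ∧ ¬ opt k then 0 else 1 / T.L k)
      (fun k => if T.h k < 0 ∧ ¬ opt k then T.F (k - 1) / (T.F k * T.R k) else 0),
    lin a b m (fun k => if T.h k < 0 ∧ ¬ opt k then 1 / T.al k else 1 / T.L k)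
      (fun k => if T.h k < 0 ∧ ¬ opt k then -(T.F (k - 1) / (T.al k * T.R k)) else 0),
    lin a b m (fun k => if T.h k < 0 ∧ opt k then T.F k / (T.F (k - 1) * T.L k) else 0)
      (fun k => if T.h k < 0 ∧ opt k then 0 else 1 / T.R k),
    lin a b m (fun k => if T.h k < 0 ∧ opt k then -(T.F k / (T.al k * T.L k)) else 0)
      (fun k => if T.h k < 0 ∧ opt k then 1 / T.al k else 1 / T.R k), ?_⟩
  intro ζ ht
  have hal : ∀ k, T.h k < 0 → T.al k = - T.h k := fun k hk => by
    simp only [Pr.al]; exact max_eq_right (by linarith)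
  have hal0 : ∀ k, ¬ T.h k < 0 → T.al k = 0 := fun k hk => by
    simp only [Pr.al]; exact max_eq_left (by linarith)
  have hLp : ∀ k, T.h k < 0 → 0 < T.L k := fun k hk => by
    rw [L_eq]; have := F_nonneg hr k; linarith
  have hRp : ∀ k, T.h k < 0 → 0 < T.R k := fun k hk => by
    rw [R_eq]; have := F_nonneg hr (k - 1); linarith
  -- `F k = 0` and `h k < 0` imply `B k = 0`
  have hB0 : ∀ k, T.h k < 0 → T.F k = 0 → Bm a b m ζ k = 0 := by
    intro k hk hF
    obtain ⟨ha, hb⟩ := range_of_neg hr hk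
    have hkb : k = b := by
      by_contra hne
      have := hr.Fpos k ha (by omega)
      linarith
    rw [← ht, Bm]
    refine Finset.sum_congr rfl fun i _ => Finset.sum_congr rfl fun i' hi' => ?_
    rw [if_pos (by rw [hkb]; exact (Finset.mem_Icc.1 hi').2)]
  have hA0 : ∀ k, T.h k < 0 → T.F (k - 1) = 0 → Am a b m ζ k = 0 := by
    intro k hk hF
    obtain ⟨ha, hb⟩ := range_of_neg hr hk
    have hka : k = a := by
      by_contra hne
      have := hr.Fpos (k - 1) (by omega) (by omega)
      linarith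
    refine Finset.sum_eq_zero fun i hi => Finset.sum_eq_zero fun i' _ => ?_
    have := (Finset.mem_Icc.1 hi).1
    rw [if_neg (by omega)]
  refine ⟨ht, ?_, ?_, ?_, ?_, ?_, ?_, ?_, ?_⟩
  · -- blkA
    intro k
    simp only [lin_apply, hc.inst]
    by_cases hk : T.h k < 0
    · have h1 := hLp k hk
      have h2 := hRp k hk
      have h3 : 0 < T.al k := by rw [hal k hk]; linarith
      have h4 : T.L k - T.al k = T.F k := by rw [L_eq, hal k hk]; ring
      by_cases ho : opt k
      · simp only [hk, ho, not_true_eq_false, and_false, if_false]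
        field_simp
        ring
      · simp only [hk, ho, not_false_eq_true, and_self, if_true]
        rw [h4]
        by_cases hF : T.F k = 0
        · rw [hF, hB0 k hk hF]; field_simp; ring
        · field_simp; ring
    · have h3 := hal0 k hk
      simp only [hk, false_and, if_false, h3]
      by_cases hL : T.L k = 0
      · rw [A_zero hg hc hL ζ ht]; simp
      · field_simp; ring
  · -- blkB
    intro k
    simp only [lin_apply, hc.inst]
    by_cases hk : T.h k < 0
    · have h1 := hLp k hk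
      have h2 := hRp k hk
      have h3 : 0 < T.al k := by rw [hal k hk]; linarith
      have h4 : T.R k - T.al k = T.F (k - 1) := by rw [R_eq, hal k hk]; ring
      by_cases ho : opt k
      · simp only [hk, ho, and_self, if_true]
        rw [h4]
        by_cases hF : T.F (k - 1) = 0
        · rw [hF, hA0 k hk hF]; field_simp; ring
        · field_simp; ring
      · simp only [hk, ho, and_false, if_false]
        field_simp
        ring
    · have h3 := hal0 k hk
      simp only [hk, false_and, if_false, h3]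
      by_cases hR : T.R k = 0
      · rw [B_zero hg hc hR ζ ht]; simp
      · field_simp; ring
  · -- tieX
    intro k hk
    simp only [lin_apply, if_neg hk]
  · -- tieN
    intro k hk
    simp only [lin_apply, if_neg hk]
  · -- ort
    intro k hk
    have h1 := hLp k hk
    have h2 := hRp k hk
    simp only [lin_apply]
    by_cases ho : opt k
    · simp only [hk, ho, not_true_eq_false, and_false, if_false, and_self, if_true]
      by_cases hF : T.F (k - 1) = 0
      · rw [hF, hA0 k hk hF]; simp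
      · field_simp; ring
    · simp only [hk, ho, not_false_eq_true, and_self, if_true, and_false, if_false]
      by_cases hF : T.F k = 0
      · rw [hF, hB0 k hk hF]; simp
      · field_simp; ring
  · -- zX
    intro k hL
    have hk : ¬ T.h k < 0 := fun hk => by have := hLp k hk; linarith
    simp [lin_apply, hk, hL]
  · -- zN
    intro k hR
    have hk : ¬ T.h k < 0 := fun hk => by have := hRp k hk; linarith
    simp [lin_apply, hk, hR]
  · -- om
    intro k hk
    have h1 := hLp k hk
    have h2 := hRp k hk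
    have h3 : 0 < T.al k := by rw [hal k hk]; linarith
    have h5 := BsubA hr hc hk ζ
    have h6 : ζ k k = (Bm a b m ζ k - Am a b m ζ k) / T.al k := by
      rw [h5]; field_simp
    rw [h6]
    simp only [lin_apply]
    by_cases ho : opt k
    · simp only [hk, ho, not_true_eq_false, and_false, if_false, and_self, if_true]
      have h4 : T.F k = T.L k - T.al k := by rw [L_eq, hal k hk]; ring
      rw [h4]
      field_simp
      ring
    · simp only [hk, ho, not_false_eq_true, and_self, if_true, and_false, if_false]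
      have h4 : T.F (k - 1) = T.R k - T.al k := by rw [R_eq, hal k hk]; ring
      rw [h4]
      field_simp
      ring

end Pool.Agent.Helper7.LZ
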